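import Pool.Agent.Y798.OG.Stm2
import Pool.Agent.H70FC.Words

/-!
# Class functions on `O(2m+1)` which are supported on one component
-/

set_option autoImplicit false

namespace Pool.Agent.Y574.OG

open Finset UnitAddTorus Polynomial Pool.Agent.Y798.FC Pool.Agent.Y139.ID Pool.Agent.Y798.OG

variable {m : ℕ}

theorem span_mul {N : ℕ} {G G' : UnitAddTorus (Fin N) → ℂ}
    (hG : G ∈ Submodule.span ℤ (wordFun N)) (hG' : G' ∈ Submodule.span ℤ (wordFun N)) :
    G * G' ∈ Submodule.span ℤ (wordFun N) := by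
  have h1 : G * G' ∈ Submodule.span ℤ (wordFun N) * Submodule.span ℤ (wordFun N) :=
    Submodule.mul_mem_mul hG hG'
  rw [Submodule.span_mul_span] at h1
  refine Submodule.span_mono ?_ h1
  rintro f hf
  obtain ⟨a, ha, b, hb, rfl⟩ := Set.mem_mul.1 hf
  exact word_mul ha hb

/-- the functions which are given on both components by the same integer combination of words -/
def SB (m : ℕ) : Subalgebra ℤ (UnitAddTorus (Fin m) → ℂ) where
  carrier := {F | ∃ G ∈ Submodule.span ℤ (wordFun (m + m + 1)),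
    ∀ x, G (posO x) = F x ∧ G (negO x) = F x}
  mul_mem' := by
    rintro F F' ⟨G, hG, h⟩ ⟨G', hG', h'⟩
    refine ⟨G * G', span_mul hG hG', fun x => ?_⟩
    rw [Pi.mul_apply, Pi.mul_apply, Pi.mul_apply, (h x).1, (h x).2, (h' x).1, (h' x).2]
    exact ⟨rfl, rfl⟩
  add_mem' := by
    rintro F F' ⟨G, hG, h⟩ ⟨G', hG', h'⟩
    refine ⟨G + G', add_mem hG hG', fun x => ?_⟩
    rw [Pi.add_apply, Pi.add_apply, Pi.add_apply, (h x).1, (h x).2, (h' x).1, (h' x).2]
    exact ⟨rfl, rfl⟩
  algebraMap_mem' := fun n => by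
    refine ⟨n • (1 : UnitAddTorus (Fin (m + m + 1)) → ℂ),
      Submodule.smul_mem _ _ (Submodule.subset_span word_one), fun x => ?_⟩
    constructor <;> simp

theorem mem_SB {F : UnitAddTorus (Fin m) → ℂ} : F ∈ SB m ↔
    ∃ G ∈ Submodule.span ℤ (wordFun (m + m + 1)), ∀ x, G (posO x) = F x ∧ G (negO x) = F x :=
  Iff.rfl

theorem fourier_half (y : UnitAddCircle) :
    (fourier 1 (y + ((1 / 2 : ℝ) : UnitAddCircle)) : ℂ) = -fourier 1 y := by
  have h := fourier_add_half_inv_index (T := 1) (n := 1) one_ne_zero one_pos y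
  have h1 : ((1 : ℝ) / 2 / ((1 : ℤ) : ℝ)) = 1 / 2 := by norm_num
  rw [h1] at h
  exact h

theorem ev_negO (x : UnitAddTorus (Fin m)) (j : Fin (m + m + 1)) :
    ev (negO x) j = -ev (posO x) j := by
  unfold ev negO
  exact fourier_half _

theorem ev_posO_zero (x : UnitAddTorus (Fin m)) : ev (posO x) 0 = 1 := by
  unfold ev posO
  rw [Fin.cons_zero]
  simp

theorem ev_posO_succ (x : UnitAddTorus (Fin m)) (j : Fin (m + m)) :
    ev (posO x) j.succ = ev (dbl x) j := by
  unfold ev posO dbl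
  rw [Fin.cons_succ]

theorem es_negO (k : ℕ) (x : UnitAddTorus (Fin m)) :
    es k (negO x) = (-1) ^ k * es k (posO x) := by
  unfold es
  rw [mul_sum]
  refine sum_congr rfl fun S hS => ?_
  obtain ⟨_, hc⟩ := mem_powersetCard.1 hS
  have h1 : ∀ i ∈ S, ev (negO x) i = (-1) * ev (posO x) i := by
    intro i _
    rw [ev_negO, neg_one_mul]
  rw [prod_congr rfl h1, prod_mul_distrib, prod_const, hc]

theorem prod_dbl (x : UnitAddTorus (Fin m)) : ∏ j, ev (dbl x) j = 1 := by
  rw [Fin.prod_univ_add, ← prod_mul_distrib]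
  refine prod_eq_one fun i _ => ?_
  have h1 : ev (dbl x) (Fin.castAdd m i) = ev x i := by
    unfold ev dbl
    rw [Fin.append_left]
  have h2 : ev (dbl x) (Fin.natAdd m i) = (ev x i)⁻¹ := by
    rw [← ev_neg]
    unfold ev dbl
    rw [Fin.append_right]
  rw [h1, h2, mul_inv_cancel₀ (ev_ne x i)]

theorem es_top_posO (x : UnitAddTorus (Fin m)) : es (m + m + 1) (posO x) = 1 := by
  have h0 : powersetCard (m + m + 1) (univ : Finset (Fin (m + m + 1))) = {univ} := by
    have h := powersetCard_self (univ : Finset (Fin (m + m + 1)))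
    rwa [card_univ, Fintype.card_fin] at h
  unfold es
  rw [h0, sum_singleton, Fin.prod_univ_succ, ev_posO_zero, one_mul]
  have h1 : ∀ i : Fin (m + m), ev (posO x) i.succ = ev (dbl x) i := fun i => ev_posO_succ x i
  rw [prod_congr rfl fun i _ => h1 i]
  exact prod_dbl x

theorem es_top_negO (x : UnitAddTorus (Fin m)) : es (m + m + 1) (negO x) = -1 := by
  rw [es_negO, es_top_posO, mul_one]
  exact Odd.neg_one_pow ⟨m, by ring⟩

/-- the generating function -/
theorem es_posO_succ (k : ℕ) (x : UnitAddTorus (Fin m)) :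
    es (k + 1) (posO x) = es (k + 1) (dbl x) + es k (dbl x) := by
  have h1 : ∏ j : Fin (m + m + 1), (1 + C (ev (posO x) j) * X) =
      (1 + X) * ∏ j : Fin (m + m), (1 + C (ev (dbl x) j) * X) := by
    rw [Fin.prod_univ_succ, ev_posO_zero, C_1, one_mul]
    simp only [ev_posO_succ]
  have h2 := congrArg (fun P : ℂ[X] => P.coeff (k + 1)) h1
  simp only [add_mul, one_mul, coeff_add, coeff_X_mul] at h2
  rw [Pool.Agent.H70FC.Words.coeff_prod, Pool.Agent.H70FC.Words.coeff_prod,
    Pool.Agent.H70FC.Words.coeff_prod] at h2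
  exact h2

theorem esO_mem {k : ℕ} (hk : k ≤ m + m + 1) :
    (fun x : UnitAddTorus (Fin m) => es k (posO x)) ∈ SB m := by
  rcases Nat.even_or_odd k with h | h
  · refine ⟨es k, Submodule.subset_span (word_es k hk), fun x => ⟨rfl, ?_⟩⟩
    rw [es_negO, h.neg_one_pow, one_mul]
  · refine ⟨es k * es (m + m + 1), span_mul (Submodule.subset_span (word_es k hk))
      (Submodule.subset_span (word_es _ le_rfl)), fun x => ⟨?_, ?_⟩⟩
    · rw [Pi.mul_apply, es_top_posO, mul_one]
    · rw [Pi.mul_apply, es_top_negO, es_negO, h.neg_one_pow]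
      ring

theorem es_zero {N : ℕ} (x : UnitAddTorus (Fin N)) : es 0 x = 1 := by
  unfold es
  rw [powersetCard_zero, sum_singleton, prod_empty]

theorem esD_mem {k : ℕ} (hk : k ≤ m + m) :
    (fun x : UnitAddTorus (Fin m) => es k (dbl x)) ∈ SB m := by
  induction k with
  | zero =>
    have h1 : (fun x : UnitAddTorus (Fin m) => es 0 (dbl x)) = 1 := by
      ext x
      rw [es_zero, Pi.one_apply]
    rw [h1]
    exact one_mem _
  | succ k ih =>
    have h1 : (fun x : UnitAddTorus (Fin m) => es (k + 1) (dbl x)) =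
        (fun x => es (k + 1) (posO x)) - fun x => es k (dbl x) := by
      ext x
      rw [Pi.sub_apply, es_posO_succ]
      ring
    rw [h1]
    exact sub_mem (esO_mem (by omega)) (ih (by omega))

theorem comp_mem {G : UnitAddTorus (Fin (m + m)) → ℂ}
    (hG : G ∈ Submodule.span ℤ (wordFun (m + m))) :
    (fun x : UnitAddTorus (Fin m) => G (dbl x)) ∈ SB m := by
  induction hG using Submodule.span_induction with
  | mem f hf =>
    obtain ⟨r, k, hk, rfl⟩ := hf
    have h1 : (fun x : UnitAddTorus (Fin m) => chiW k (dbl x)) =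
        ∏ j, fun x : UnitAddTorus (Fin m) => es (k j) (dbl x) := by
      ext x
      rw [Finset.prod_apply]
      rfl
    rw [h1]
    exact prod_mem fun j _ => esD_mem (hk j)
  | zero =>
    have h1 : (fun x : UnitAddTorus (Fin m) =>
        (0 : UnitAddTorus (Fin (m + m)) → ℂ) (dbl x)) = 0 := rfl
    rw [h1]
    exact zero_mem _
  | add f g _ _ hf hg => exact add_mem hf hg
  | smul a f _ hf => exact zsmul_mem hf a

theorem t : StmAlgB := by
  intro m μ
  obtain ⟨G₀, hG₀, h0⟩ := Pool.Agent.H70FC.Words.t m μ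
  obtain ⟨H, hH, h⟩ := mem_SB.1 (comp_mem hG₀)
  have h1 : ∀ x, H (posO x) = orb (sympW m) μ x := fun x => ((h x).1).trans (h0 x).symm
  have h2 : ∀ x, H (negO x) = orb (sympW m) μ x := fun x => ((h x).2).trans (h0 x).symm
  have hE : (es (m + m + 1) * H : UnitAddTorus (Fin (m + m + 1)) → ℂ) ∈
      Submodule.span ℤ (wordFun (m + m + 1)) :=
    span_mul (Submodule.subset_span (word_es _ le_rfl)) hH
  refine ⟨⟨H + es (m + m + 1) * H, add_mem hH hE, fun x => ?_, fun x => ?_⟩,
    ⟨H - es (m + m + 1) * H, sub_mem hH hE, fun x => ?_, fun x => ?_⟩⟩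
  · rw [Pi.add_apply, Pi.mul_apply, es_top_posO, h1]
    ring
  · rw [Pi.add_apply, Pi.mul_apply, es_top_negO, h2]
    ring
  · rw [Pi.sub_apply, Pi.mul_apply, es_top_posO, h1]
    ring
  · rw [Pi.sub_apply, Pi.mul_apply, es_top_negO, h2]
    ring

end Pool.Agent.Y574.OG
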