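import Pool.Agent.Y192.OG.StG

/-!
# OG-G3 (helper574): varieties over a variety of log general type, highly ramified over the boundary,
are of log general type
-/

set_option autoImplicit false

namespace Pool.Agent.Y574.OG

open FF MvPolynomial Pool.Agent.W603.LV Pool.Agent.W602.GT Pool.Agent.TH122.AB
open Metric Pool.Agent.W602.Cov.R Pool.Agent.TH152.HY Pool.Agent.Y192.OG

/-- values of homogeneous polynomials at multiples -/
theorem aeval_mul_hom {ι L : Type} [Field L] [Algebra ℂ L] {Q : MvPolynomial ι ℂ} {q : ℕ}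
    (hQ : Q.IsHomogeneous q) (t : L) (x : ι → L) :
    aeval (fun i => t * x i) Q = t ^ q * aeval x Q := by
  rw [aeval_def, aeval_def, eval₂_eq, eval₂_eq, Finset.mul_sum]
  refine Finset.sum_congr rfl fun m hm => ?_
  have h1 : ∑ i ∈ m.support, m i = q := by
    have h2 := hQ (mem_support_iff.1 hm)
    rw [Finsupp.weight_apply, Finsupp.sum] at h2
    simpa using h2
  have h3 : ∏ i ∈ m.support, (t * x i) ^ m i = t ^ q * ∏ i ∈ m.support, x i ^ m i := by
    rw [← h1, ← Finset.prod_pow_eq_pow_sum, ← Finset.prod_mul_distrib]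
    exact Finset.prod_congr rfl fun i _ => mul_pow _ _ _
  rw [h3]
  ring

/-- the function field of a variety is finitely generated -/
theorem ess_of_gen {N n : ℕ} {L : Type} [Field L] [Algebra ℂ L] (a : Fin (N + 1) → L)
    (b : Fin (n + 1) → L)
    (h : IntermediateField.adjoin ℂ
      ({f | ∃ i j, a j ≠ 0 ∧ f = a i / a j} ∪ {f | ∃ i j, b j ≠ 0 ∧ f = b i / b j}) = ⊤) :
    Algebra.EssFiniteType ℂ L := by
  rw [← IntermediateField.fg_top_iff]
  have hf : ({f | ∃ i j, a j ≠ 0 ∧ f = a i / a j} ∪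
      {f | ∃ i j, b j ≠ 0 ∧ f = b i / b j} : Set L).Finite := by
    refine Set.Finite.union ?_ ?_
    · refine (Set.finite_range (fun p : Fin (N + 1) × Fin (N + 1) => a p.1 / a p.2)).subset ?_
      rintro _ ⟨i, j, -, rfl⟩
      exact ⟨(i, j), rfl⟩
    · refine (Set.finite_range (fun p : Fin (n + 1) × Fin (n + 1) => b p.1 / b p.2)).subset ?_
      rintro _ ⟨i, j, -, rfl⟩
      exact ⟨(i, j), rfl⟩
  refine ⟨hf.toFinset, ?_⟩
  rw [Set.Finite.coe_toFinset]
  exact h

/-- `L` is algebraic over the image of `K` -/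
theorem alg_of_image {K L : Type} [Field K] [Field L] [Algebra ℂ K] [Algebra ℂ L] [Algebra K L]
    [IsScalarTower ℂ K L] (S : Set L) (hS : S ⊆ Set.range (algebraMap K L))
    (h : Algebra.IsAlgebraic (IntermediateField.adjoin ℂ S) L) : Algebra.IsAlgebraic K L := by
  let σ : K →ₐ[ℂ] L := IsScalarTower.toAlgHom ℂ K L
  have hle : IntermediateField.adjoin ℂ S ≤ σ.fieldRange := by
    rw [IntermediateField.adjoin_le_iff]
    intro z hz
    obtain ⟨w, rfl⟩ := hS hz
    exact ⟨w, rfl⟩
  have hex : ∀ z : IntermediateField.adjoin ℂ S, ∃ w : K, σ w = z := fun z => hle z.2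
  choose f hf using hex
  have hinj : Function.Injective σ := σ.toRingHom.injective
  let j : IntermediateField.adjoin ℂ S →+* K :=
    { toFun := f
      map_one' := hinj (by rw [hf, map_one]; rfl)
      map_mul' := fun x y => hinj (by rw [hf, map_mul, hf, hf]; rfl)
      map_zero' := hinj (by rw [hf, map_zero]; rfl)
      map_add' := fun x y => hinj (by rw [hf, map_add, hf, hf]; rfl) }
  have hj : ∀ z, algebraMap K L (j z) = z := hf
  letI : Algebra (IntermediateField.adjoin ℂ S) K := j.toAlgebra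
  haveI : IsScalarTower (IntermediateField.adjoin ℂ S) K L :=
    IsScalarTower.of_algebraMap_eq fun z => (hj z).symm
  exact Algebra.IsAlgebraic.tower_top (K := IntermediateField.adjoin ℂ S) K

/-- G3 -/
theorem t_gen (hL : St_lgt) : St_gen := by
  intro K _ _ _ n d q y Q hd hy hQh hQ halg hlgt
  obtain ⟨m0, hm0⟩ := hL K n d y (aeval y Q / y 0 ^ q) hd hy
    (div_ne_zero hQ (pow_ne_zero _ (hy 0))) halg hlgt
  refine ⟨m0, fun m hm N X D hoff L _ _ a b hX hD hbalg σ hσ => ?_⟩
  have hσ0 : ∀ i, σ (y i) ≠ 0 := fun i => (_root_.map_ne_zero σ).2 (hy i)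
  have hb : ∀ i, b i ≠ 0 := by
    intro i hi
    apply hX.mem.2.1
    funext j
    have h1 := hσ i j
    rw [hi, mul_zero] at h1
    exact (mul_eq_zero.1 h1).resolve_left (hσ0 i)
  letI : Algebra K L := σ.toAlgebra
  haveI : IsScalarTower ℂ K L := IsScalarTower.of_algebraMap_eq fun z => (σ.commutes z).symm
  haveI : Algebra.EssFiniteType ℂ L := ess_of_gen a b hX.gen
  have hmap : ∀ z, algebraMap K L z = σ z := fun z => rfl
  haveI : Algebra.IsAlgebraic K L := by
    refine alg_of_image _ ?_ hbalg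
    rintro _ ⟨i, j, hj, rfl⟩
    refine ⟨y i / y j, ?_⟩
    rw [hmap, map_div₀, div_eq_div_iff (hσ0 j) (hb j), hσ i j, mul_comm]
  refine hm0 L (CentreIn D a b) fun P hP => ?_
  simp only [hmap]
  -- the minimum of the orders
  obtain ⟨j0, -, hj0⟩ := Finset.exists_min_image (Finset.univ : Finset (Fin (n + 1)))
    (fun i => P.ord (b i)) ⟨0, Finset.mem_univ _⟩
  have hN : Norm P b (P.ord (b j0)) :=
    ⟨fun j _ => hj0 j (Finset.mem_univ _), j0, hb j0, rfl⟩
  obtain ⟨h1, h2⟩ := hoff L a b hX.mem hb P hP _ hN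
  obtain ⟨t, ht0, ht⟩ : ∃ t : L, t ≠ 0 ∧ ∀ i, b i = t * σ (y i) := by
    refine ⟨b 0 / σ (y 0), div_ne_zero (hb 0) (hσ0 0), fun i => ?_⟩
    rw [div_mul_eq_mul_div, eq_div_iff (hσ0 0), mul_comm (b i), ← hσ i 0, mul_comm]
  have hord : ∀ i, P.ord (b i) = P.ord t + P.ord (σ (y i)) := by
    intro i
    rw [ht i, P.ord_mul ht0 (hσ0 i)]
  by_cases hc : ∃ i, P.ord (b i) ≠ P.ord (b j0)
  · right
    obtain ⟨i, hi⟩ := h1 hc
    refine ⟨j0, i, ?_⟩
    rw [hord i, hord j0] at hi
    have hmm : (m0 : ℤ) ≤ m := by exact_mod_cast hm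
    linarith
  · push Not at hc
    left
    refine ⟨fun i => ?_, ?_⟩
    · have h3 := hc i
      have h4 := hc 0
      rw [hord i] at h3
      rw [hord 0] at h4
      linarith
    · have h3 : aeval b Q = t ^ q * σ (aeval y Q) := by
        have e1 : b = fun i => t * σ (y i) := funext ht
        have e2 : σ (aeval y Q) = aeval (fun i => σ (y i)) Q := by
          rw [← AlgHom.comp_apply, comp_aeval]
        rw [e2, e1, aeval_mul_hom hQh]
      have h4 : σ (aeval y Q) ≠ 0 := (_root_.map_ne_zero σ).2 hQ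
      have h5 : aeval b Q ≠ 0 := by
        rw [h3]
        exact mul_ne_zero (pow_ne_zero _ ht0) h4
      have h6 := h2 hc h5
      rw [h3, P.ord_mul (pow_ne_zero _ ht0) h4, P.ord_pow] at h6
      rw [map_div₀, map_pow, P.ord_div h4 (pow_ne_zero _ (hσ0 0)), P.ord_pow]
      have h7 := hc 0
      rw [hord 0] at h7
      intro h8
      apply h6
      have h9 : P.ord (σ (aeval y Q)) = 1 + q * P.ord (σ (y 0)) := by linarith
      rw [h9, ← h7]
      ring

end Pool.Agent.Y574.OG
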